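import Pool.Agent.L0h97.LZ.Bil

/-!
# Project LZ, module RIG: rigidity in the isotropic case
-/

set_option autoImplicit false
set_option linter.all false

open Pool.Agent.Y167 (cone)
open Pool.Agent.N165.KM (IntL)
open Topology Filter

namespace Pool.Agent.L0h97.LZ

open Pool.Agent.L0h18.LZ

variable {ρ : ℕ} (B : Matrix (Fin ρ) (Fin ρ) ℤ)

/-- transvection -/
noncomputable def tv (e w x : Fin ρ → ℝ) : Fin ρ → ℝ :=
  x + bil B x e • w - bil B x w • e - (bil B w w / 2 * bil B x e) • e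

variable {B}

theorem bil_tv_left (e w x y : Fin ρ → ℝ) : bil B (tv B e w x) y =
    bil B x y + bil B x e * bil B w y - bil B x w * bil B e y -
      bil B w w / 2 * bil B x e * bil B e y := by
  unfold tv
  rw [bil_sub_left, bil_sub_left, bil_add_left, bil_smul_left, bil_smul_left, bil_smul_left]

theorem bil_tv_right (e w x y : Fin ρ → ℝ) : bil B y (tv B e w x) =
    bil B y x + bil B x e * bil B y w - bil B x w * bil B y e -
      bil B w w / 2 * bil B x e * bil B y e := by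
  unfold tv
  rw [bil_sub_right, bil_sub_right, bil_add_right, bil_smul_right, bil_smul_right, bil_smul_right]

theorem tv_zero (e x : Fin ρ → ℝ) : tv B e 0 x = x := by
  unfold tv
  rw [bil_zero_right, bil_zero_right]
  simp

theorem tv_tv (hs : ∀ i j, B i j = B j i) {e w w' : Fin ρ → ℝ} (hee : bil B e e = 0)
    (hw : bil B w e = 0) (hw' : bil B w' e = 0) (x : Fin ρ → ℝ) :
    tv B e w (tv B e w' x) = tv B e (w + w') x := by
  have h1 : bil B (tv B e w' x) e = bil B x e := by
    rw [bil_tv_left, hw', hee]; ring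
  have h2 : bil B (tv B e w' x) w = bil B x w + bil B x e * bil B w' w := by
    rw [bil_tv_left, bil_comm hs e w, hw]; ring
  have h3 : bil B (w + w') (w + w') = bil B w w + 2 * bil B w' w + bil B w' w' := by
    rw [bil_add_left, bil_add_right, bil_add_right, bil_comm hs w w']; ring
  have e1 : tv B e w (tv B e w' x) = tv B e w' x + bil B (tv B e w' x) e • w -
    bil B (tv B e w' x) w • e - (bil B w w / 2 * bil B (tv B e w' x) e) • e := rfl
  rw [e1, h1, h2]
  unfold tv
  rw [h3, bil_add_right]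
  module

theorem tv_iso (hs : ∀ i j, B i j = B j i) {e w : Fin ρ → ℝ} (hee : bil B e e = 0)
    (hw : bil B w e = 0) (x y : Fin ρ → ℝ) :
    bil B (tv B e w x) (tv B e w y) = bil B x y := by
  rw [bil_tv_left, bil_tv_right, bil_tv_right, bil_tv_right, hee, hw, bil_comm hs e w, hw,
    bil_comm hs w y, bil_comm hs e y]
  ring

theorem tv_add (e w x y : Fin ρ → ℝ) : tv B e w (x + y) = tv B e w x + tv B e w y := by
  unfold tv
  rw [bil_add_left, bil_add_left]
  module

theorem tv_smul (e w : Fin ρ → ℝ) (t : ℝ) (x : Fin ρ → ℝ) : tv B e w (t • x) = t • tv B e w x := by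
  unfold tv
  rw [bil_smul_left, bil_smul_left]
  module

/-- the transvection as a linear automorphism -/
noncomputable def TV (hs : ∀ i j, B i j = B j i) (e w : Fin ρ → ℝ) (hee : bil B e e = 0)
    (hw : bil B w e = 0) : (Fin ρ → ℝ) ≃ₗ[ℝ] (Fin ρ → ℝ) where
  toFun := tv B e w
  map_add' := tv_add e w
  map_smul' := fun t x => tv_smul e w t x
  invFun := tv B e (-w)
  left_inv := fun x => by
    rw [tv_tv hs hee (by rw [bil_neg_left, hw, neg_zero]) hw, neg_add_cancel, tv_zero]
  right_inv := fun x => by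
    rw [tv_tv hs hee hw (by rw [bil_neg_left, hw, neg_zero]), add_neg_cancel, tv_zero]

theorem tv_int (e w x : Fin ρ → ℝ) (he : e ∈ IntL ρ) (hw : w ∈ IntL ρ) (hx : x ∈ IntL ρ)
    (hww : ∃ n : ℤ, bil B w w / 2 = n) : tv B e w x ∈ IntL ρ := by
  obtain ⟨a, ha⟩ := bil_int B hx he
  obtain ⟨b, hb⟩ := bil_int B hx hw
  obtain ⟨c, hc⟩ := hww
  unfold tv
  rw [ha, hb, hc]
  have h1 : ((c : ℝ) * a) = ((c * a : ℤ) : ℝ) := by push_cast; rfl
  rw [h1]
  exact (IntL ρ).sub_mem ((IntL ρ).sub_mem ((IntL ρ).add_mem hx (int_smul hw a)) (int_smul he b))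
    (int_smul he (c * a))

/-- a negative integral vector orthogonal to an isotropic vector -/
theorem exists_w (hbas : S_BAS) {h : Fin ρ → ℝ} (hL : Lorentz B h) (hρ : 3 ≤ ρ) {e : Fin ρ → ℝ}
    (he : e ∈ Pts B h) (hee : bil B e e = 0) :
    ∃ w ∈ IntL ρ, bil B w e = 0 ∧ bil B w w < 0 := by
  classical
  obtain ⟨_, _, hthird, _, _, _, _, _, hnd, _⟩ := hbas ρ B h hL
  have hs := hL.symm
  obtain ⟨heI, he0, heN⟩ := he
  -- a basis vector which is not orthogonal to `e`
  set f : Fin ρ → ℝ := fun i => bil B (Pi.single i 1) e with hf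
  have hfI : ∀ i, ∃ n : ℤ, f i = n := fun i => bil_int B (single_int i) heI
  obtain ⟨j, hj⟩ : ∃ j, f j ≠ 0 := by
    by_contra hcon
    push Not at hcon
    apply he0
    apply hnd
    intro y
    rw [bil_comm hs, ← Finset.univ_sum_single y]
    have : ∀ S : Finset (Fin ρ), bil B (∑ i ∈ S, Pi.single i (y i)) e = 0 := by
      intro S
      induction S using Finset.induction_on with
      | empty => rw [Finset.sum_empty, bil_zero_left]
      | insert a S ha ih =>
        rw [Finset.sum_insert ha, bil_add_left, ih, add_zero]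
        have h1 : (Pi.single a (y a) : Fin ρ → ℝ) = y a • Pi.single a 1 := by
          rw [← Pi.single_smul, smul_eq_mul, mul_one]
        rw [h1, bil_smul_left]
        have := hcon a
        rw [hf] at this
        simp only at this
        rw [this, mul_zero]
    exact this Finset.univ
  obtain ⟨i, i', hij, hi'j, hii'⟩ : ∃ i i' : Fin ρ, i ≠ j ∧ i' ≠ j ∧ i ≠ i' := by
    have hcard : 2 ≤ (Finset.univ.erase j : Finset (Fin ρ)).card := by
      rw [Finset.card_erase_of_mem (Finset.mem_univ j), Finset.card_univ, Fintype.card_fin]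
      omega
    obtain ⟨a, ha, b, hb, hab⟩ := Finset.one_lt_card.1 hcard
    exact ⟨a, b, Finset.ne_of_mem_erase ha, Finset.ne_of_mem_erase hb, hab⟩
  have hU : ∀ i, ∃ u : Fin ρ → ℝ, u = f j • Pi.single i (1 : ℝ) - f i • Pi.single j (1 : ℝ) ∧
      u ∈ IntL ρ ∧ bil B u e = 0 := by
    intro i
    refine ⟨_, rfl, ?_, ?_⟩
    · obtain ⟨a, ha⟩ := hfI i
      obtain ⟨b, hb⟩ := hfI j
      rw [ha, hb]
      exact (IntL ρ).sub_mem (int_smul (single_int i) b) (int_smul (single_int j) a)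
    · rw [bil_sub_left, bil_smul_left, bil_smul_left]
      show f j * f i - f i * f j = 0
      ring
  have key : ∀ w : Fin ρ → ℝ, bil B w e = 0 → (∀ t : ℝ, w ≠ t • e) → bil B w w < 0 := by
    intro w hwe hwt
    by_contra hcon
    rw [not_lt] at hcon
    rcases le_total 0 (bil B w h) with h1 | h1
    · obtain ⟨t, _, ht⟩ := hthird e heN w ⟨hcon, h1⟩ he0 (by rw [bil_comm hs, hwe])
      exact hwt t ht
    · obtain ⟨t, _, ht⟩ := hthird e heN (-w) ⟨by rw [bil_neg_left, bil_neg_right, neg_neg]; exact hcon,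
        by rw [bil_neg_left]; linarith⟩ he0 (by rw [bil_neg_right, bil_comm hs, hwe, neg_zero])
      exact hwt (-t) (by rw [neg_smul, ← ht, neg_neg])
  obtain ⟨u, hu, huI, hue⟩ := hU i
  obtain ⟨u', hu', huI', hue'⟩ := hU i'
  by_cases h1 : ∀ t : ℝ, u ≠ t • e
  · exact ⟨u, huI, hue, key u hue h1⟩
  · refine ⟨u', huI', hue', key u' hue' ?_⟩
    push Not at h1
    obtain ⟨t, ht⟩ := h1
    intro t' ht'
    have e1 := congrFun (hu.symm.trans ht) i
    have e2 := congrFun (hu.symm.trans ht) i'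
    have e3 := congrFun (hu'.symm.trans ht') i'
    simp only [Pi.sub_apply, Pi.smul_apply, smul_eq_mul, Pi.single_apply, if_true, if_neg hij,
      if_neg (Ne.symm hii'), if_neg hi'j] at e1 e2 e3
    have ht0 : t ≠ 0 := by
      rintro rfl
      apply hj
      linarith
    have e4 : e i' = 0 := by
      have : t * e i' = 0 := by linarith
      exact (mul_eq_zero.1 this).resolve_left ht0
    rw [e4] at e3
    apply hj
    linarith

/-- a power of a transvection is in the group, and the consequence for the invariant closed cones -/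
theorem limit (hbas : S_BAS) {h : Fin ρ → ℝ} (hL : Lorentz B h) (hρ : 3 ≤ ρ)
    {𝒢 : Set ((Fin ρ → ℝ) ≃ₗ[ℝ] (Fin ρ → ℝ))} (hG : FinIdx B h 𝒢) {e : Fin ρ → ℝ}
    (he : e ∈ Pts B h) (hee : bil B e e = 0) {D : Set (Fin ρ → ℝ)} (hcl : IsClosed D)
    (hsm : ∀ t : ℝ, 0 ≤ t → ∀ x ∈ D, t • x ∈ D) (hinv : ∀ T ∈ 𝒢, ∀ x ∈ D, T x ∈ D) :
    ∃ c : ℝ, 0 < c ∧ ∀ x ∈ D, (c * bil B x e) • e ∈ D := by
  classical
  have hs := hL.symm
  obtain ⟨w₀, hw₀I, hw₀e, hw₀⟩ := exists_w hbas hL hρ he hee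
  obtain ⟨w, hw⟩ : ∃ w : Fin ρ → ℝ, w = (2 : ℝ) • w₀ := ⟨_, rfl⟩
  have hwI : w ∈ IntL ρ := by
    have := int_smul hw₀I 2
    rw [Int.cast_ofNat] at this
    rw [hw]
    exact this
  have hwe : bil B w e = 0 := by rw [hw, bil_smul_left, hw₀e, mul_zero]
  have hww : bil B w w = 4 * bil B w₀ w₀ := by rw [hw, bil_smul_left, bil_smul_right]; ring
  have hke : ∀ k : ℝ, bil B (k • w) e = 0 := fun k => by rw [bil_smul_left, hwe, mul_zero]
  let E : ℕ → ((Fin ρ → ℝ) ≃ₗ[ℝ] (Fin ρ → ℝ)) := fun k => TV hs e ((k : ℝ) • w) hee (hke k)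
  have hE : ∀ k x, E k x = tv B e ((k : ℝ) • w) x := fun k x => rfl
  have hEs : ∀ k x, (E k).symm x = tv B e (-((k : ℝ) • w)) x := fun k x => rfl
  have hEadd : ∀ k l, E k * E l = E (k + l) := by
    intro k l
    refine LinearEquiv.ext fun x => ?_
    show E k (E l x) = E (k + l) x
    rw [hE, hE, hE, tv_tv hs hee (hke _) (hke _), ← add_smul]
    push_cast
    rfl
  have hEI : ∀ k, E k ∈ IsoZ B h := by
    intro k
    obtain ⟨n, hn⟩ := bil_int B hw₀I hw₀I
    have hk1 : ∃ n : ℤ, bil B ((k : ℝ) • w) ((k : ℝ) • w) / 2 = n := by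
      refine ⟨2 * k ^ 2 * n, ?_⟩
      rw [bil_smul_left, bil_smul_right, hww, hn]
      push_cast
      ring
    have hk2 : ∃ n : ℤ, bil B (-((k : ℝ) • w)) (-((k : ℝ) • w)) / 2 = n := by
      rw [bil_neg_left, bil_neg_right, neg_neg]; exact hk1
    refine ⟨fun x hx => ?_, fun x hx => ?_, fun x y => ?_, ?_⟩
    · rw [hE]; exact tv_int e _ x he.1 (nat_smul hwI k) hx hk1
    · rw [hEs]; exact tv_int e _ x he.1 ((IntL ρ).neg_mem (nat_smul hwI k)) hx hk2
    · rw [hE, hE, tv_iso hs hee (hke k)]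
    · rw [hE, bil_tv_left, bil_smul_left, bil_smul_left, bil_smul_right, bil_smul_right, hww,
        bil_comm hs w h, bil_comm hs e h]
      have h1 := hL.pos
      have h2 : 0 ≤ (k : ℝ) ^ 2 * (-bil B w₀ w₀) * (bil B h e) ^ 2 := by
        have : 0 ≤ -bil B w₀ w₀ := by linarith
        positivity
      nlinarith
  -- pigeonhole
  obtain ⟨R, hRf, hRI, hR⟩ := hG.idx
  have hdec : ∀ k, ∃ S ∈ 𝒢, ∃ r ∈ R, E k = S * r := fun k => hR (E k) (hEI k)
  choose S hS r hr hSr using hdec
  haveI : Finite R := hRf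
  obtain ⟨i, j, hij, hrij⟩ : ∃ i j : ℕ, i < j ∧ r i = r j := by
    obtain ⟨i, j, hne, heq⟩ := Finite.exists_ne_map_eq_of_infinite (fun k => (⟨r k, hr k⟩ : R))
    have heq' : r i = r j := congrArg Subtype.val heq
    rcases lt_or_gt_of_ne hne with h | h
    · exact ⟨i, j, h, heq'⟩
    · exact ⟨j, i, h, heq'.symm⟩
  set m : ℕ := j - i with hm
  have hm0 : 0 < m := by omega
  have hEm : E m ∈ 𝒢 := by
    have h1 : E m * E i = E j := by rw [hEadd]; congr 1; omega
    have h2 : E m = S j * (S i)⁻¹ := by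
      rw [hSr i, hSr j, ← hrij] at h1
      have h3 : E m * S i = S j := by
        have := congrArg (fun T => T * (r i)⁻¹) h1
        simpa [mul_assoc] using this
      rw [← h3, mul_assoc, mul_inv_cancel, mul_one]
    rw [h2]
    exact hG.mul _ (hS j) _ (hG.inv _ (hS i))
  have hEk : ∀ k : ℕ, E (m * (k + 1)) ∈ 𝒢 := by
    intro k
    induction k with
    | zero => simpa using hEm
    | succ k ih =>
      have : E (m * (k + 1 + 1)) = E (m * (k + 1)) * E m := by
        rw [hEadd]; congr 1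
      rw [this]
      exact hG.mul _ ih _ hEm
  -- the limit
  refine ⟨(m : ℝ) ^ 2 / 2 * (-bil B w w), ?_, fun x hx => ?_⟩
  · rw [hww]
    have : (0 : ℝ) < m := by exact_mod_cast hm0
    have h2 : 0 < -(4 * bil B w₀ w₀) := by linarith
    positivity
  · have hmem : ∀ k : ℕ, ((1 : ℝ) / ((k : ℝ) + 1)) ^ 2 • E (m * (k + 1)) x ∈ D := fun k =>
      hsm _ (by positivity) _ (hinv _ (hEk k) x hx)
    have hval : ∀ k : ℕ, ((1 : ℝ) / ((k : ℝ) + 1)) ^ 2 • E (m * (k + 1)) x =
        ((1 : ℝ) / ((k : ℝ) + 1)) ^ 2 • x +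
        ((1 : ℝ) / ((k : ℝ) + 1)) • ((m : ℝ) • (bil B x e • w - bil B x w • e)) +
          ((m : ℝ) ^ 2 / 2 * (-bil B w w) * bil B x e) • e := by
      intro k
      have hk : ((k : ℝ) + 1) ≠ 0 := by positivity
      rw [hE]
      unfold tv
      rw [bil_smul_right, bil_smul_left, bil_smul_right]
      push_cast
      ext i
      simp only [Pi.smul_apply, Pi.add_apply, Pi.sub_apply, smul_eq_mul]
      field_simp
      ring
    have h0 : Tendsto (fun N : ℕ => (1 : ℝ) / ((N : ℝ) + 1)) atTop (𝓝 0) :=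
      tendsto_one_div_add_atTop_nhds_zero_nat
    have hlim : Tendsto (fun k : ℕ => ((1 : ℝ) / ((k : ℝ) + 1)) ^ 2 • E (m * (k + 1)) x) atTop
        (𝓝 (((m : ℝ) ^ 2 / 2 * (-bil B w w) * bil B x e) • e)) := by
      simp only [hval]
      have h1 : Tendsto (fun k : ℕ => ((1 : ℝ) / ((k : ℝ) + 1)) ^ 2 • x) atTop
          (𝓝 ((0 : ℝ) ^ 2 • x)) := (h0.pow 2).smul_const x
      have h2 : Tendsto (fun k : ℕ => ((1 : ℝ) / ((k : ℝ) + 1)) •
          ((m : ℝ) • (bil B x e • w - bil B x w • e))) atTop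
          (𝓝 ((0 : ℝ) • ((m : ℝ) • (bil B x e • w - bil B x w • e)))) := h0.smul_const _
      have h3 := (h1.add h2).add_const (((m : ℝ) ^ 2 / 2 * (-bil B w w) * bil B x e) • e)
      simpa using h3
    exact hcl.mem_of_tendsto hlim (Eventually.of_forall hmem)

theorem rig : S_RIG := by
  intro hbas ρ B h hL hρ 𝒢 hG hex D hcl hadd hsm hpt hinv hne
  obtain ⟨hsign, hsign2, hthird, hself, _, _, _, _, hnd, _⟩ := hbas ρ B h hL
  have hs := hL.symm
  obtain ⟨x₀, hx₀D, hx₀P⟩ := hne
  have hhP : h ∈ pcone B h := ⟨hL.pos, hL.pos⟩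
  -- the isotropic integral vectors
  have hiso : ∀ e ∈ Pts B h, bil B e e = 0 → e ∈ D ∧ ∀ y ∈ D, 0 ≤ bil B y e := by
    intro e he hee
    obtain ⟨c, hc, hlim⟩ := limit hbas hL hρ hG he hee hcl hsm hinv
    have h1 : 0 < bil B x₀ e := hsign x₀ hx₀P e he.2.2 he.2.1
    have heD : e ∈ D := by
      have h2 := hsm (c * bil B x₀ e)⁻¹ (by positivity) _ (hlim x₀ hx₀D)
      rw [smul_smul, inv_mul_cancel₀ (by positivity), one_smul] at h2
      exact h2
    refine ⟨heD, fun y hy => ?_⟩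
    by_contra hcon
    rw [not_le] at hcon
    have h3 : 0 < -(c * bil B y e) := by nlinarith
    have h2 := hsm (-(c * bil B y e))⁻¹ (by positivity) _ (hlim y hy)
    rw [smul_smul] at h2
    have h4 : (-(c * bil B y e))⁻¹ * (c * bil B y e) = -1 := by
      rw [inv_neg, neg_mul, inv_mul_cancel₀ (by linarith : c * bil B y e ≠ 0)]
    rw [h4, neg_one_smul] at h2
    exact he.2.1 (hpt e heD h2)
  obtain ⟨e, he, hee⟩ := hex
  obtain ⟨heD, heb⟩ := hiso e he hee
  have heN := he.2.2
  have h0D : (0 : Fin ρ → ℝ) ∈ D := by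
    have := hsm 0 le_rfl e heD
    rwa [zero_smul] at this
  -- all the isotropic vectors
  set g : (Fin ρ → ℝ) → (Fin ρ → ℝ) := fun v => (2 * bil B v e) • v - bil B v v • e with hg
  have hgc : Continuous g := by
    have h1 : Continuous fun v : Fin ρ → ℝ => bil B v e := continuous_bil' B continuous_id continuous_const
    have h2 : Continuous fun v : Fin ρ → ℝ => bil B v v := continuous_bil' B continuous_id continuous_id
    exact ((continuous_const.mul h1).smul continuous_id).sub (h2.smul continuous_const)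
  have hgs : ∀ (t : ℝ) v, g (t • v) = t ^ 2 • g v := by
    intro t v
    rw [hg]
    simp only [bil_smul_left, bil_smul_right]
    module
  have hgi : ∀ v, bil B (g v) (g v) = 0 := by
    intro v
    rw [hg]
    simp only [bil_sub_left, bil_sub_right, bil_smul_left, bil_smul_right, hee, bil_comm hs e v]
    ring
  have hgI : ∀ v ∈ IntL ρ, g v ∈ IntL ρ := by
    intro v hv
    obtain ⟨a, ha⟩ := bil_int B hv he.1
    obtain ⟨b, hb⟩ := bil_int B hv hv
    rw [hg]
    simp only [ha, hb]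
    have h1 : ((2 : ℝ) * a) = ((2 * a : ℤ) : ℝ) := by push_cast; rfl
    rw [h1]
    exact (IntL ρ).sub_mem (int_smul hv _) (int_smul he.1 _)
  have hall : ∀ ξ ∈ ncone B h, bil B ξ ξ = 0 → ξ ∈ D := by
    intro ξ hξN hξξ
    by_cases hξe : bil B ξ e = 0
    · obtain ⟨t, ht, hte⟩ := hthird e heN ξ hξN he.2.1 (by rw [bil_comm hs, hξe])
      rw [hte]
      exact hsm t ht e heD
    · have hξe' : 0 < bil B ξ e := lt_of_le_of_ne (hsign2 ξ hξN e heN) (Ne.symm hξe)
      have hξ0 : ξ ≠ 0 := by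
        rintro rfl
        rw [bil_zero_left] at hξe'
        exact lt_irrefl _ hξe'
      have hgξ : g ξ = (2 * bil B ξ e) • ξ := by
        rw [hg]
        simp only [hξξ, zero_smul, sub_zero]
      have hpos : 0 < bil B (g ξ) h := by
        rw [hgξ, bil_smul_left, bil_comm hs ξ h]
        have := hsign h hhP ξ hξN hξ0
        positivity
      have hlim := (hgc.tendsto ξ).comp (approx ξ)
      have hlim2 : Tendsto (fun N : ℕ => bil B (g (((1 : ℝ) / ((N : ℝ) + 1)) •
          (fun i => ((⌊((N : ℝ) + 1) * ξ i⌋ : ℤ) : ℝ) : Fin ρ → ℝ))) h) atTop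
          (𝓝 (bil B (g ξ) h)) :=
        ((continuous_bil' B hgc continuous_const).tendsto ξ).comp (approx ξ)
      have hev : ∀ᶠ N : ℕ in atTop, g (((1 : ℝ) / ((N : ℝ) + 1)) •
          (fun i => ((⌊((N : ℝ) + 1) * ξ i⌋ : ℤ) : ℝ) : Fin ρ → ℝ)) ∈ D := by
        filter_upwards [hlim2.eventually (lt_mem_nhds hpos)] with N hN
        have hN0 : (0 : ℝ) < (1 : ℝ) / ((N : ℝ) + 1) := by positivity
        rw [hgs] at hN ⊢
        rw [bil_smul_left] at hN
        have h2 : 0 < bil B (g (fun i => ((⌊((N : ℝ) + 1) * ξ i⌋ : ℤ) : ℝ))) h := by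
          exact (mul_pos_iff_of_pos_left (by positivity)).1 hN
        refine hsm _ (by positivity) _ (hiso _ ⟨hgI _ (floor_int N ξ), ?_, ?_, h2.le⟩ (hgi _)).1
        · intro h3
          rw [h3, bil_zero_left] at h2
          exact lt_irrefl _ h2
        · rw [hgi]
      have h5 : g ξ ∈ D := hcl.mem_of_tendsto hlim hev
      rw [hgξ] at h5
      have h6 := hsm (2 * bil B ξ e)⁻¹ (by positivity) _ h5
      rw [smul_smul, inv_mul_cancel₀ (by positivity), one_smul] at h6
      exact h6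
  have hallb : ∀ ξ ∈ ncone B h, bil B ξ ξ = 0 → ∀ y ∈ D, 0 ≤ bil B y ξ := by
    intro ξ hξN hξξ y hy
    by_cases hξe : bil B ξ e = 0
    · obtain ⟨t, ht, hte⟩ := hthird e heN ξ hξN he.2.1 (by rw [bil_comm hs, hξe])
      rw [hte, bil_smul_right]
      exact mul_nonneg ht (heb y hy)
    · have hξe' : 0 < bil B ξ e := lt_of_le_of_ne (hsign2 ξ hξN e heN) (Ne.symm hξe)
      have hξ0 : ξ ≠ 0 := by
        rintro rfl
        rw [bil_zero_left] at hξe'
        exact lt_irrefl _ hξe'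
      have hgξ : g ξ = (2 * bil B ξ e) • ξ := by
        rw [hg]
        simp only [hξξ, zero_smul, sub_zero]
      have hpos : 0 < bil B (g ξ) h := by
        rw [hgξ, bil_smul_left, bil_comm hs ξ h]
        have := hsign h hhP ξ hξN hξ0
        positivity
      have hlim : Tendsto (fun N : ℕ => bil B y (g (((1 : ℝ) / ((N : ℝ) + 1)) •
          (fun i => ((⌊((N : ℝ) + 1) * ξ i⌋ : ℤ) : ℝ) : Fin ρ → ℝ)))) atTop
          (𝓝 (bil B y (g ξ))) :=
        ((continuous_bil' B continuous_const hgc).tendsto ξ).comp (approx ξ)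
      have hlim2 : Tendsto (fun N : ℕ => bil B (g (((1 : ℝ) / ((N : ℝ) + 1)) •
          (fun i => ((⌊((N : ℝ) + 1) * ξ i⌋ : ℤ) : ℝ) : Fin ρ → ℝ))) h) atTop
          (𝓝 (bil B (g ξ) h)) :=
        ((continuous_bil' B hgc continuous_const).tendsto ξ).comp (approx ξ)
      have hev : ∀ᶠ N : ℕ in atTop, 0 ≤ bil B y (g (((1 : ℝ) / ((N : ℝ) + 1)) •
          (fun i => ((⌊((N : ℝ) + 1) * ξ i⌋ : ℤ) : ℝ) : Fin ρ → ℝ))) := by
        filter_upwards [hlim2.eventually (lt_mem_nhds hpos)] with N hN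
        have hN0 : (0 : ℝ) < (1 : ℝ) / ((N : ℝ) + 1) := by positivity
        rw [hgs] at hN ⊢
        rw [bil_smul_left] at hN
        have h2 : 0 < bil B (g (fun i => ((⌊((N : ℝ) + 1) * ξ i⌋ : ℤ) : ℝ))) h := by
          exact (mul_pos_iff_of_pos_left (by positivity)).1 hN
        rw [bil_smul_right]
        refine mul_nonneg (by positivity)
          ((hiso _ ⟨hgI _ (floor_int N ξ), ?_, ?_, h2.le⟩ (hgi _)).2 y hy)
        · intro h3
          rw [h3, bil_zero_left] at h2
          exact lt_irrefl _ h2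
        · rw [hgi]
      have h5 : 0 ≤ bil B y (g ξ) := ge_of_tendsto hlim hev
      rw [hgξ, bil_smul_right] at h5
      exact nonneg_of_mul_nonneg_right h5 (by positivity)
  -- decomposition
  have hdec : ∀ x ∈ ncone B h, ∃ (s : ℝ) (ξ : Fin ρ → ℝ), 0 ≤ s ∧ ξ ∈ ncone B h ∧
      bil B ξ ξ = 0 ∧ x = s • e + ξ := by
    intro x hx
    by_cases hxx : bil B x x = 0
    · exact ⟨0, x, le_rfl, hx, hxx, by rw [zero_smul, zero_add]⟩
    · have hxx' : 0 < bil B x x := lt_of_le_of_ne hx.1 (Ne.symm hxx)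
      have hxh : 0 < bil B x h := by
        have h1 : bil B h x ≠ 0 := by
          intro h2
          have hx0 : x ≠ 0 := by
            rintro rfl
            rw [bil_zero_left] at hxx'
            exact lt_irrefl _ hxx'
          have := hsign h hhP x hx hx0
          linarith
        rw [bil_comm hs] at h1
        exact lt_of_le_of_ne hx.2 (Ne.symm h1)
      have hxe : 0 < bil B x e := hsign x ⟨hxx', hxh⟩ e heN he.2.1
      set s : ℝ := bil B x x / (2 * bil B x e) with hs'
      have hs0 : 0 ≤ s := by positivity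
      have hse : s * bil B x e = bil B x x / 2 := by
        rw [hs']; field_simp
      set ξ : Fin ρ → ℝ := x - s • e with hξ
      have hξξ : bil B ξ ξ = 0 := by
        rw [hξ, bil_sub_left, bil_sub_right, bil_sub_right, bil_smul_left, bil_smul_left,
          bil_smul_right, bil_smul_right, hee, bil_comm hs e x]
        linarith
      have hξx : 0 < bil B x ξ := by
        rw [hξ, bil_sub_right, bil_smul_right]
        linarith
      refine ⟨s, ξ, hs0, ⟨hξξ.ge, ?_⟩, hξξ, by rw [hξ]; abel⟩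
      by_contra hcon
      rw [not_le] at hcon
      have h3 : -ξ ∈ ncone B h := ⟨by rw [bil_neg_left, bil_neg_right, neg_neg, hξξ],
        by rw [bil_neg_left]; linarith⟩
      have h4 := hsign2 x hx (-ξ) h3
      rw [bil_neg_right] at h4
      linarith
  refine Set.Subset.antisymm ?_ ?_
  · intro y hy
    refine hself y (fun x hx => ?_)
    obtain ⟨s, ξ, hs0, hξN, hξξ, hxs⟩ := hdec x hx
    rw [hxs, bil_add_right, bil_smul_right]
    exact add_nonneg (mul_nonneg hs0 (heb y hy)) (hallb ξ hξN hξξ y hy)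
  · intro x hx
    obtain ⟨s, ξ, hs0, hξN, hξξ, hxs⟩ := hdec x hx
    rw [hxs]
    exact hadd _ (hsm s hs0 e heD) _ (hall ξ hξN hξξ)

end Pool.Agent.L0h97.LZ
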