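import Pool.Agent.L0h18.LZ.Defs

/-!
# Project LZ: basic lemmas on the bilinear form
-/

set_option autoImplicit false
set_option linter.all false

open Pool.Agent.Y167 (cone)
open Pool.Agent.N165.KM (IntL)
open Topology Filter

namespace Pool.Agent.L0h97.LZ

open Pool.Agent.L0h18.LZ

variable {ρ : ℕ} (B : Matrix (Fin ρ) (Fin ρ) ℤ)

theorem bil_add_left (x y z : Fin ρ → ℝ) : bil B (x + y) z = bil B x z + bil B y z := by
  unfold bil
  rw [← Finset.sum_add_distrib]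
  refine Finset.sum_congr rfl fun i _ => ?_
  rw [← Finset.sum_add_distrib]
  refine Finset.sum_congr rfl fun j _ => ?_
  rw [Pi.add_apply]; ring

theorem bil_add_right (x y z : Fin ρ → ℝ) : bil B x (y + z) = bil B x y + bil B x z := by
  unfold bil
  rw [← Finset.sum_add_distrib]
  refine Finset.sum_congr rfl fun i _ => ?_
  rw [← Finset.sum_add_distrib]
  refine Finset.sum_congr rfl fun j _ => ?_
  rw [Pi.add_apply]; ring

theorem bil_smul_left (t : ℝ) (x z : Fin ρ → ℝ) : bil B (t • x) z = t * bil B x z := by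
  unfold bil
  rw [Finset.mul_sum]
  refine Finset.sum_congr rfl fun i _ => ?_
  rw [Finset.mul_sum]
  refine Finset.sum_congr rfl fun j _ => ?_
  rw [Pi.smul_apply, smul_eq_mul]; ring

theorem bil_smul_right (t : ℝ) (x z : Fin ρ → ℝ) : bil B x (t • z) = t * bil B x z := by
  unfold bil
  rw [Finset.mul_sum]
  refine Finset.sum_congr rfl fun i _ => ?_
  rw [Finset.mul_sum]
  refine Finset.sum_congr rfl fun j _ => ?_
  rw [Pi.smul_apply, smul_eq_mul]; ring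

theorem bil_neg_left (x z : Fin ρ → ℝ) : bil B (-x) z = -bil B x z := by
  rw [← neg_one_smul ℝ x, bil_smul_left]; ring

theorem bil_neg_right (x z : Fin ρ → ℝ) : bil B x (-z) = -bil B x z := by
  rw [← neg_one_smul ℝ z, bil_smul_right]; ring

theorem bil_sub_left (x y z : Fin ρ → ℝ) : bil B (x - y) z = bil B x z - bil B y z := by
  rw [sub_eq_add_neg, bil_add_left, bil_neg_left]; ring

theorem bil_sub_right (x y z : Fin ρ → ℝ) : bil B x (y - z) = bil B x y - bil B x z := by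
  rw [sub_eq_add_neg, bil_add_right, bil_neg_right]; ring

theorem bil_zero_left (z : Fin ρ → ℝ) : bil B 0 z = 0 := by
  rw [← zero_smul ℝ (0 : Fin ρ → ℝ), bil_smul_left, zero_mul]

theorem bil_zero_right (z : Fin ρ → ℝ) : bil B z 0 = 0 := by
  rw [← zero_smul ℝ (0 : Fin ρ → ℝ), bil_smul_right, zero_mul]

variable {B} in
theorem bil_comm (hs : ∀ i j, B i j = B j i) (x y : Fin ρ → ℝ) : bil B x y = bil B y x := by
  unfold bil
  rw [Finset.sum_comm]
  refine Finset.sum_congr rfl fun i _ => ?_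
  refine Finset.sum_congr rfl fun j _ => ?_
  rw [hs j i]; ring

theorem continuous_bil : Continuous fun p : (Fin ρ → ℝ) × (Fin ρ → ℝ) => bil B p.1 p.2 := by
  unfold bil
  fun_prop

theorem continuous_bil' {X : Type*} [TopologicalSpace X] {f g : X → (Fin ρ → ℝ)}
    (hf : Continuous f) (hg : Continuous g) : Continuous fun x => bil B (f x) (g x) :=
  (continuous_bil B).comp (hf.prodMk hg)

theorem bil_int {x y : Fin ρ → ℝ} (hx : x ∈ IntL ρ) (hy : y ∈ IntL ρ) : ∃ n : ℤ, bil B x y = n := by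
  choose a ha using hx
  choose b hb using hy
  refine ⟨∑ i, ∑ j, B i j * a i * b j, ?_⟩
  unfold bil
  push_cast
  refine Finset.sum_congr rfl fun i _ => Finset.sum_congr rfl fun j _ => ?_
  rw [ha i, hb j]

theorem int_smul {x : Fin ρ → ℝ} (hx : x ∈ IntL ρ) (n : ℤ) : (n : ℝ) • x ∈ IntL ρ := by
  intro i
  obtain ⟨a, ha⟩ := hx i
  exact ⟨n * a, by rw [Pi.smul_apply, ha, smul_eq_mul]; push_cast; rfl⟩

theorem nat_smul {x : Fin ρ → ℝ} (hx : x ∈ IntL ρ) (n : ℕ) : (n : ℝ) • x ∈ IntL ρ := by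
  have := int_smul hx n
  exact_mod_cast this

theorem single_int [DecidableEq (Fin ρ)] (i : Fin ρ) : (Pi.single i (1 : ℝ) : Fin ρ → ℝ) ∈ IntL ρ := by
  intro j
  by_cases h : j = i
  · subst h
    exact ⟨1, by simp⟩
  · exact ⟨0, by simp [h]⟩

/-- approximation by rational multiples of integral vectors -/
theorem approx (ξ : Fin ρ → ℝ) : Tendsto
    (fun N : ℕ => ((1 : ℝ) / ((N : ℝ) + 1)) • (fun i => ((⌊((N : ℝ) + 1) * ξ i⌋ : ℤ) : ℝ) : Fin ρ → ℝ))
    atTop (𝓝 ξ) := by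
  rw [tendsto_pi_nhds]
  intro i
  have h0 : Tendsto (fun N : ℕ => (1 : ℝ) / ((N : ℝ) + 1)) atTop (𝓝 0) :=
    tendsto_one_div_add_atTop_nhds_zero_nat
  have h1 : Tendsto (fun N : ℕ => ξ i - (1 : ℝ) / ((N : ℝ) + 1)) atTop (𝓝 (ξ i)) := by
    simpa using (tendsto_const_nhds (x := ξ i)).sub h0
  refine tendsto_of_tendsto_of_tendsto_of_le_of_le h1 tendsto_const_nhds ?_ ?_
  · intro N
    have hN : (0 : ℝ) < (N : ℝ) + 1 := by positivity
    show ξ i - 1 / ((N : ℝ) + 1) ≤ (1 / ((N : ℝ) + 1)) * ((⌊((N : ℝ) + 1) * ξ i⌋ : ℤ) : ℝ)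
    have h2 := Int.sub_one_lt_floor (((N : ℝ) + 1) * ξ i)
    rw [← sub_nonneg]
    have : (1 / ((N : ℝ) + 1)) * ((⌊((N : ℝ) + 1) * ξ i⌋ : ℤ) : ℝ) - (ξ i - 1 / ((N : ℝ) + 1)) =
      (1 / ((N : ℝ) + 1)) * (((⌊((N : ℝ) + 1) * ξ i⌋ : ℤ) : ℝ) - (((N : ℝ) + 1) * ξ i - 1)) := by
      field_simp
    rw [this]
    exact mul_nonneg (by positivity) (by linarith)
  · intro N
    have hN : (0 : ℝ) < (N : ℝ) + 1 := by positivity
    show (1 / ((N : ℝ) + 1)) * ((⌊((N : ℝ) + 1) * ξ i⌋ : ℤ) : ℝ) ≤ ξ i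
    have h2 := Int.floor_le (((N : ℝ) + 1) * ξ i)
    calc (1 / ((N : ℝ) + 1)) * ((⌊((N : ℝ) + 1) * ξ i⌋ : ℤ) : ℝ)
        ≤ (1 / ((N : ℝ) + 1)) * (((N : ℝ) + 1) * ξ i) := by gcongr
      _ = ξ i := by field_simp

theorem floor_int (N : ℕ) (ξ : Fin ρ → ℝ) :
    (fun i => ((⌊((N : ℝ) + 1) * ξ i⌋ : ℤ) : ℝ) : Fin ρ → ℝ) ∈ IntL ρ := fun i => ⟨_, rfl⟩

end Pool.Agent.L0h97.LZ
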